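import Mathlib
import Pool.Agent.X54.HI3
set_option autoImplicit false

/-!
# The independence number of highly irregular trees

A graph is highly irregular if any two distinct neighbours of a vertex have different degrees. Every
highly irregular tree with `n ≥ 2` vertices has independence number at most `(79 n - 22) / 127`.
Equality holds for a tree with 26 vertices, and `(79 n - 26) / 127` is attained for
`n = 100 + 254 k`; in particular `c* = 79/127`.
-/

namespace Pool.Agent.Results.MP_913bbb_co.Constant

open SimpleGraph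

open Classical in
/-- `G` is highly irregular: any two distinct neighbours of a vertex have different degrees. -/
def HighlyIrregular {V : Type} [Fintype V] (G : SimpleGraph V) : Prop :=
  ∀ v x y : V, G.Adj v x → G.Adj v y → x ≠ y → G.degree x ≠ G.degree y

lemma upper {V : Type} [Fintype V] (G : SimpleGraph V) (hG : G.IsTree) (h : HighlyIrregular G)
    (hn : 2 ≤ Fintype.card V) : 127 * G.indepNum + 22 ≤ 79 * Fintype.card V := by
  classical
  obtain ⟨s, hs⟩ := G.exists_isNIndepSet_indepNum
  rw [← hs.card_eq]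
  refine Pool.Agent.X54.HI.upper G hG h hn s ?_
  intro u hu v hv huv
  exact hs.isIndepSet hu hv huv.ne huv

lemma lower {V : Type} [Fintype V] (G : SimpleGraph V) (S : Finset V)
    (hS : ∀ u ∈ S, ∀ v ∈ S, ¬ G.Adj u v) : S.card ≤ G.indepNum :=
  SimpleGraph.IsIndepSet.card_le_indepNum (fun u hu v hv _ => hS u hu v hv)

section n26
open Pool.Agent.X54.HI Pool.Agent.X54.RT

/-- the tree with 26 vertices -/
def X26 : T := nd true [nd false [nd true [nd false [L1, nd true [T4out3, P2out]]]]]

lemma ex26 : ∃ (V : Type) (_ : Fintype V) (G : SimpleGraph V), G.IsTree ∧ HighlyIrregular G ∧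
    Fintype.card V = 26 ∧ G.indepNum = 16 := by
  classical
  have hg : good X26 1 := by decide
  have hc : (chd X26).Nodup := by decide
  have hn : nch X26 = 1 := rfl
  have h26 : Fintype.card (Pool.Agent.X54.RT.V X26) = 26 := by rw [card_V]; rfl
  have hHI : HighlyIrregular (Pool.Agent.X54.RT.G X26) := by
    intro v x y hx hy hxy
    rw [deg_all, deg_all, hn]
    exact distinct X26 1 hg v (fun _ => hc) x y hx hy hxy
  refine ⟨Pool.Agent.X54.RT.V X26, inferInstance, Pool.Agent.X54.RT.G X26, isTree X26, hHI, h26, ?_⟩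
  have h1 := upper (Pool.Agent.X54.RT.G X26) (isTree X26) hHI (by rw [h26]; norm_num)
  have h2 := lower (Pool.Agent.X54.RT.G X26)
    (Finset.univ.filter (fun v => L X26 v = true)) (by
      intro u hu v hv huv
      exact indep X26 1 hg u v huv ⟨(Finset.mem_filter.1 hu).2, (Finset.mem_filter.1 hv).2⟩)
  rw [card_L] at h2
  rw [h26] at h1
  have h3 : cnt X26 = 16 := rfl
  omega

end n26

/-- (1) `127 α(G) + 22 ≤ 79 n` for every highly irregular tree `G` with `n ≥ 2` vertices.
(2) Equality holds for some highly irregular tree with 26 vertices.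
(3) For every `k` some highly irregular tree with `n = 100 + 254 k` vertices has
`127 α(G) + 26 = 79 n`.
(4) The constant `c*`, the supremum of `α(G) / n` over the highly irregular trees with `n ≥ 2`
vertices, is `79 / 127`. -/
theorem result :
    (∀ (V : Type) [Fintype V] (G : SimpleGraph V), G.IsTree → HighlyIrregular G →
      2 ≤ Fintype.card V → 127 * G.indepNum + 22 ≤ 79 * Fintype.card V) ∧
    (∃ (V : Type) (_ : Fintype V) (G : SimpleGraph V), G.IsTree ∧ HighlyIrregular G ∧
      Fintype.card V = 26 ∧ 127 * G.indepNum + 22 = 79 * Fintype.card V) ∧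
    (∀ k : ℕ, ∃ (V : Type) (_ : Fintype V) (G : SimpleGraph V), G.IsTree ∧ HighlyIrregular G ∧
      Fintype.card V = 100 + 254 * k ∧ 127 * G.indepNum + 26 = 79 * Fintype.card V) ∧
    IsLUB {x : ℝ | ∃ (V : Type) (_ : Fintype V) (G : SimpleGraph V), G.IsTree ∧
      HighlyIrregular G ∧ 2 ≤ Fintype.card V ∧ x = (G.indepNum : ℝ) / (Fintype.card V : ℝ)}
      (79 / 127) := by
  classical
  have h3 : ∀ k : ℕ, ∃ (V : Type) (_ : Fintype V) (G : SimpleGraph V), G.IsTree ∧
      HighlyIrregular G ∧ Fintype.card V = 100 + 254 * k ∧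
      127 * G.indepNum + 26 = 79 * Fintype.card V := by
    intro k
    obtain ⟨V, hV, G, h1, h2, h3, S, hS, hc⟩ := Pool.Agent.X54.HI.lower k
    refine ⟨V, hV, G, h1, h2, h3, ?_⟩
    have e1 := upper G h1 (h2) (by omega)
    have e2 := lower G S hS
    omega
  refine ⟨fun V _ G hG h hn => upper G hG h hn, ?_, h3, ?_, ?_⟩
  · obtain ⟨V, hV, G, h1, h2, h3, h4⟩ := ex26
    exact ⟨V, hV, G, h1, h2, h3, by omega⟩
  · rintro x ⟨V, hV, G, h1, h2, hn, rfl⟩
    have e := upper G h1 h2 hn
    have hpos : (0 : ℝ) < (Fintype.card V : ℝ) := by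
      have : 0 < Fintype.card V := by omega
      exact_mod_cast this
    rw [div_le_div_iff₀ hpos (by norm_num)]
    have e' : (127 : ℝ) * (G.indepNum : ℝ) + 22 ≤ 79 * (Fintype.card V : ℝ) := by exact_mod_cast e
    linarith
  · intro b hb
    by_contra hlt
    push Not at hlt
    -- choose k with 26 / 127 / n < 79/127 - b
    obtain ⟨k, hk⟩ := exists_nat_gt (1 / (79 / 127 - b))
    obtain ⟨V, hV, G, h1, h2, hn, he⟩ := h3 k
    have hle := hb ⟨V, hV, G, h1, h2, by omega, rfl⟩
    have hd : 0 < 79 / 127 - b := by linarith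
    have hpos : (0 : ℝ) < (Fintype.card V : ℝ) := by
      have : 0 < Fintype.card V := by omega
      exact_mod_cast this
    have he' : (127 : ℝ) * (G.indepNum : ℝ) + 26 = 79 * (Fintype.card V : ℝ) := by exact_mod_cast he
    rw [div_le_iff₀ hpos] at hle
    have hn' : (Fintype.card V : ℝ) = 100 + 254 * (k : ℝ) := by exact_mod_cast hn
    rw [div_lt_iff₀ hd] at hk
    have hk0 : (0 : ℝ) ≤ k := Nat.cast_nonneg k
    nlinarith

end Pool.Agent.Results.MP_913bbb_co.Constant
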